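import Pool.Agent.Helper42.PQ.Spec

set_option autoImplicit false
set_option linter.unusedSectionVars false

namespace Pool.Agent.Helper97.PQ.CNT

open Finset Pool.Agent.Helper42.PQ Pool.Agent.Helper46.PV

variable {ι : Type} [Fintype ι] [DecidableEq ι]

lemma Wt_apply {d s : ℕ} (S : Multiset (G ι d s)) (v : ι) :
    Wt S v = (S.map (fun m => m.1 v)).sum := by
  induction S using Multiset.induction_on with
  | empty => simp [Wt]
  | cons a S ih =>
    have : Wt (a ::ₘ S) = a.1 + Wt S := by simp [Wt]
    rw [this, Pi.add_apply, ih]; simp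

/-- contribution -/
def cc (n W : ℕ) : ℕ := if n = W then 2 else if n = 0 then 0 else 1

lemma sum_one {X : Type} (f : X → ℕ) (R : Multiset X) (h : (R.map f).sum = 1) :
    ∃ a A, R = a ::ₘ A ∧ f a = 1 ∧ ∀ a' ∈ A, f a' = 0 := by
  induction R using Multiset.induction_on with
  | empty => simp at h
  | cons a R ih =>
    rw [Multiset.map_cons, Multiset.sum_cons] at h
    rcases Nat.eq_zero_or_pos (f a) with h0 | h0
    · rw [h0, zero_add] at h
      obtain ⟨b, A, rfl, hb, hA⟩ := ih h
      refine ⟨b, a ::ₘ A, Multiset.cons_swap _ _ _, hb, ?_⟩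
      intro a' ha'
      rcases Multiset.mem_cons.1 ha' with rfl | h'
      · exact h0
      · exact hA _ h'
    · refine ⟨a, R, rfl, by omega, ?_⟩
      intro a' ha'
      have h1 : (R.map f).sum = 0 := by omega
      have h2 := Multiset.sum_eq_zero_iff.1 h1 (f a') (Multiset.mem_map_of_mem f ha')
      exact h2

lemma cc_pos {n W : ℕ} (h : n ≠ 0) : 1 ≤ cc n W := by
  unfold cc; split_ifs <;> omega

lemma two_le {X : Type} (f : X → ℕ) (S : Multiset X) (W : ℕ) (hW : W ≠ 0)
    (h : (S.map f).sum = W) : 2 ≤ (S.map (fun a => cc (f a) W)).sum := by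
  by_contra hc
  rcases Nat.eq_zero_or_pos (S.map (fun a => cc (f a) W)).sum with h0 | h0
  · have h1 : ∀ a ∈ S, f a = 0 := by
      intro a ha
      by_contra hne
      have h2 := Multiset.sum_eq_zero_iff.1 h0 _ (Multiset.mem_map_of_mem (fun a => cc (f a) W) ha)
      have := cc_pos (W := W) hne
      omega
    apply hW
    rw [← h]
    exact Multiset.sum_eq_zero (by
      intro x hx
      obtain ⟨a, ha, rfl⟩ := Multiset.mem_map.1 hx
      exact h1 a ha)
  · obtain ⟨a, A, rfl, ha, hA⟩ := sum_one _ S (by omega : (S.map (fun a => cc (f a) W)).sum = 1)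
    have h1 : ∀ a' ∈ A, f a' = 0 := by
      intro a' ha'
      by_contra hne
      have := cc_pos (W := W) hne
      have := hA a' ha'
      omega
    have h2 : (A.map f).sum = 0 := Multiset.sum_eq_zero (by
      intro x hx
      obtain ⟨a, ha, rfl⟩ := Multiset.mem_map.1 hx
      exact h1 a ha)
    rw [Multiset.map_cons, Multiset.sum_cons, h2, add_zero] at h
    rw [h] at ha
    simp [cc] at ha

lemma sum_comm' {X Y : Type} (V : Finset Y) (f : X → Y → ℕ) (S : Multiset X) :
    (S.map (fun a => ∑ v ∈ V, f a v)).sum = ∑ v ∈ V, (S.map (fun a => f a v)).sum := by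
  induction S using Multiset.induction_on with
  | empty => simp
  | cons a S ih => simp [ih, Finset.sum_add_distrib]

/-- a block which is a basic node -/
lemma node_of {d r : ℕ} (w : ι → ℕ) (D : Finset ι) (a : ι → ℕ) (ha : ∑ i, a i = d)
    (P : Finset ι) (x : ι) (hP : P ⊆ D) (hx : x ∈ D) (hxP : x ∉ P) (hc : P.card = r)
    (h1 : ∀ i ∈ P, a i = w i) (h2 : ∀ i, i ∉ P → i ≠ x → a i = 0) (h3 : a x ≤ w x) :
    a = bvec w d (P, x) ∧ Nd w r d D (P, x) := by
  have hd : d = sg w P + a x := by
    rw [← ha]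
    have e1 : ∑ i, a i = ∑ i ∈ insert x P, a i := by
      symm
      refine sum_subset (subset_univ _) fun i _ hi => ?_
      rw [mem_insert, not_or] at hi
      exact h2 i hi.2 hi.1
    rw [e1, sum_insert hxP, add_comm]
    congr 1
    exact sum_congr rfl h1
  refine ⟨?_, hP, hx, ?_⟩
  · funext i
    unfold bvec
    by_cases hi : i ∈ P
    · simp only [hi, if_true]; exact h1 i hi
    · by_cases hix : i = x
      · subst hix
        simp only [hi, if_false, if_true]
        omega
      · simp only [hi, hix, if_false]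
        exact h2 i hi hix
  · refine ⟨hc, hxP, ?_, ?_⟩
    · show sg w P ≤ d
      omega
    · show d ≤ sg w P + w x
      omega

/-- full and shared variables -/
def Fu (w a : ι → ℕ) : Finset ι := (sp w).filter (fun v => a v = w v)
def Sh (w a : ι → ℕ) : Finset ι := (sp w).filter (fun v => a v ≠ w v ∧ a v ≠ 0)

lemma card_FS (w a : ι → ℕ) {s : ℕ} (h : (univ.filter (fun i => a i ≠ 0)).card ≤ s) :
    (Fu w a).card + (Sh w a).card ≤ s := by
  have hd : Disjoint (Fu w a) (Sh w a) := by
    rw [disjoint_left]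
    intro i hi hj
    simp only [Fu, Sh, mem_filter] at hi hj
    exact hj.2.1 hi.2
  rw [← card_union_of_disjoint hd]
  refine le_trans (card_le_card ?_) h
  intro i hi
  simp only [Fu, Sh, sp, mem_union, mem_filter, mem_univ, true_and] at hi ⊢
  rcases hi with hi | hi
  · rw [hi.2]; exact hi.1
  · exact hi.2.2

lemma sum_cc (w a : ι → ℕ) :
    ∑ v ∈ sp w, cc (a v) (w v) = 2 * (Fu w a).card + (Sh w a).card := by
  rw [Fu, Sh, card_filter, card_filter, mul_sum, ← sum_add_distrib]
  refine sum_congr rfl fun v _ => ?_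
  unfold cc
  by_cases h1 : a v = w v
  · simp [h1]
  · by_cases h2 : a v = 0
    · rw [if_neg h1, if_pos h2, if_neg h1, if_neg (fun h => h.2 h2)]; rfl
    · rw [if_neg h1, if_neg h2, if_neg h1, if_pos (⟨h1, h2⟩ : a v ≠ w v ∧ a v ≠ 0)]; rfl

lemma good {d r k : ℕ} (hk : 1 ≤ k) (hr : 2 ≤ r) (w : ι → ℕ) (D : Finset ι)
    (hD : D.card = k * r + 1) (hw : ∀ i, i ∉ D → w i = 0)
    (a : G ι d (r + 1)) (haw : ∀ i, a.1 i ≤ w i) (hs : (Sh w a.1).card ≤ 1)
    (hf : r ≤ (Fu w a.1).card + (D \ sp w).card) :
    ∃ p, a.1 = bvec w d p ∧ Nd w r d D p := by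
  have hFS := card_FS w a.1 a.2.2
  have hspD : sp w ⊆ D := by
    intro i hi
    by_contra h
    simp only [sp, mem_filter, mem_univ, true_and] at hi
    exact hi (hw i h)
  have hFD : Fu w a.1 ⊆ D := (filter_subset _ _).trans hspD
  have hz : ∀ i, i ∉ Fu w a.1 → i ∉ Sh w a.1 → a.1 i = 0 := by
    intro i h1 h2
    by_contra h
    have hwi : w i ≠ 0 := by have := haw i; omega
    have hsp : i ∈ sp w := by simp [sp, hwi]
    by_cases h3 : a.1 i = w i
    · exact h1 (by simp [Fu, hsp, h3])
    · exact h2 (by simp [Sh, hsp, h3, h])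
  have hdis : Disjoint (Fu w a.1) (D \ sp w) := by
    rw [disjoint_left]
    intro i hi hj
    simp only [Fu, mem_filter] at hi
    exact (mem_sdiff.1 hj).2 hi.1
  have hfull : ∀ i ∈ Fu w a.1 ∪ (D \ sp w), a.1 i = w i := by
    intro i hi
    rcases mem_union.1 hi with h | h
    · exact (mem_filter.1 h).2
    · have : w i = 0 := by
        by_contra h0
        exact (mem_sdiff.1 h).2 (by simp [sp, h0])
      have := haw i
      omega
  rw [← card_union_of_disjoint hdis] at hf
  have hrk : r < D.card := by rw [hD]; nlinarith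
  rcases Nat.eq_zero_or_pos (Sh w a.1).card with h0 | h0
  · rw [card_eq_zero] at h0
    by_cases hr1 : (Fu w a.1).card ≤ r
    · obtain ⟨P, hP1, hP2, hP3⟩ := exists_subsuperset_card_eq
        (subset_union_left (s₁ := Fu w a.1) (s₂ := D \ sp w)) hr1 hf
      have hPD : P ⊆ D := hP2.trans (union_subset hFD sdiff_subset)
      obtain ⟨x, hx, hxP⟩ := exists_mem_notMem_of_card_lt_card (s := P) (t := D) (by omega)
      exact ⟨(P, x), node_of w D a.1 a.2.1 P x hPD hx hxP hP3 (fun i hi => hfull i (hP2 hi))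
        (fun i hi _ => hz i (fun h => hi (hP1 h)) (by rw [h0]; exact notMem_empty _)) (haw x)⟩
    · have hc : (Fu w a.1).card = r + 1 := by omega
      obtain ⟨x, hx⟩ := card_pos.1 (by omega : 0 < (Fu w a.1).card)
      refine ⟨((Fu w a.1).erase x, x), node_of w D a.1 a.2.1 _ x ((erase_subset _ _).trans hFD)
        (hFD hx) (notMem_erase _ _) (by rw [card_erase_of_mem hx]; omega)
        (fun i hi => (mem_filter.1 (mem_of_mem_erase hi)).2) (fun i hi hix => ?_) (haw x)⟩
      refine hz i (fun h => hi (mem_erase.2 ⟨hix, h⟩)) (by rw [h0]; exact notMem_empty _)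
  · obtain ⟨x, hx⟩ := card_eq_one.1 (by omega : (Sh w a.1).card = 1)
    have hxS : x ∈ Sh w a.1 := by rw [hx]; exact mem_singleton_self _
    have hxs := (mem_filter.1 hxS)
    obtain ⟨P, hP1, hP2, hP3⟩ := exists_subsuperset_card_eq
        (subset_union_left (s₁ := Fu w a.1) (s₂ := D \ sp w)) (by omega : _ ≤ r) hf
    have hPD : P ⊆ D := hP2.trans (union_subset hFD sdiff_subset)
    refine ⟨(P, x), node_of w D a.1 a.2.1 P x hPD (hspD hxs.1)
      (fun h => hxs.2.1 (hfull x (hP2 h))) hP3 (fun i hi => hfull i (hP2 hi))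
      (fun i hi hix => hz i (fun h => hi (hP1 h)) (by rw [hx]; simpa using hix)) (haw x)⟩

theorem main : S_CNT := by
  intro ι _ _ d r k D w S hr hk hD hw hsp hS hwt
  have hspD : sp w ⊆ D := by
    intro i hi
    by_contra h
    simp only [sp, mem_filter, mem_univ, true_and] at hi
    exact hi (hw i h)
  have hap : ∀ v, (S.map (fun m => m.1 v)).sum = w v := fun v => by rw [← Wt_apply, hwt]
  have hle : ∀ a ∈ S, ∀ i, a.1 i ≤ w i := by
    intro a ha i
    rw [← hap i]
    exact Multiset.le_sum_of_mem (Multiset.mem_map_of_mem (fun m : G ι d (r + 1) => m.1 i) ha)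
  have hcard : (D \ sp w).card + (sp w).card = k * r + 1 := by
    rw [card_sdiff_add_card_eq_card hspD, hD]
  by_cases hg : ∃ a ∈ S, (Sh w a.1).card ≤ 1 ∧ r ≤ (Fu w a.1).card + (D \ sp w).card
  · obtain ⟨a, ha, h1, h2⟩ := hg
    obtain ⟨p, h3, h4⟩ := good hk hr w D hD hw a (hle a ha) h1 h2
    exact ⟨p, a, S, ha, h3, h4, Relation.EqvGen.refl _⟩
  push Not at hg
  -- counting
  have hF : ∀ a ∈ S, 2 * (Fu w a.1).card + (Sh w a.1).card ≤ 2 * r := by
    intro a ha
    have h1 := card_FS w a.1 a.2.2
    by_cases h2 : (Sh w a.1).card ≤ 1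
    · have := hg a ha h2
      omega
    · omega
  have hT : ∀ v ∈ sp w, 2 ≤ (S.map (fun a => cc (a.1 v) (w v))).sum := by
    intro v hv
    simp only [sp, mem_filter, mem_univ, true_and] at hv
    exact two_le (fun m : G ι d (r + 1) => m.1 v) S (w v) hv (hap v)
  have hdc := sum_comm' (sp w) (fun (a : G ι d (r + 1)) v => cc (a.1 v) (w v)) S
  simp only [sum_cc] at hdc
  have hup : (S.map (fun a => 2 * (Fu w a.1).card + (Sh w a.1).card)).sum ≤ k * (2 * r) := by
    have := Multiset.sum_le_card_nsmul (S.map (fun a => 2 * (Fu w a.1).card + (Sh w a.1).card))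
      (2 * r) (by
        intro x hx
        obtain ⟨a, ha, rfl⟩ := Multiset.mem_map.1 hx
        exact hF a ha)
    simpa [hS] using this
  have hlo : (sp w).card * 2 ≤ ∑ v ∈ sp w, (S.map (fun a => cc (a.1 v) (w v))).sum := by
    have := card_nsmul_le_sum (sp w) (fun v => (S.map (fun a => cc (a.1 v) (w v))).sum) 2 hT
    simpa using this
  have hspc : (sp w).card = k * r := by nlinarith
  have hz1 : (D \ sp w).card = 1 := by omega
  have hT2 : ∀ v ∈ sp w, (S.map (fun a => cc (a.1 v) (w v))).sum = 2 := by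
    have h1 : ∑ v ∈ sp w, (S.map (fun a => cc (a.1 v) (w v))).sum = ∑ v ∈ sp w, 2 := by
      rw [sum_const, smul_eq_mul]
      nlinarith
    intro v hv
    exact ((sum_eq_sum_iff_of_le hT).1 h1.symm v hv).symm
  have hF2 : ∀ a ∈ S, (Fu w a.1).card + 1 = r ∧ (Sh w a.1).card = 2 := by
    intro a ha
    obtain ⟨R, rfl⟩ := Multiset.exists_cons_of_mem ha
    have h1 : (R.map (fun a => 2 * (Fu w a.1).card + (Sh w a.1).card)).sum ≤ R.card * (2 * r) := by
      have := Multiset.sum_le_card_nsmul (R.map (fun a => 2 * (Fu w a.1).card + (Sh w a.1).card))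
        (2 * r) (by
          intro x hx
          obtain ⟨a, ha, rfl⟩ := Multiset.mem_map.1 hx
          exact hF a (Multiset.mem_cons_of_mem ha))
      simpa using this
    rw [Multiset.map_cons, Multiset.sum_cons] at hdc
    rw [Multiset.card_cons] at hS
    have h2 : 2 * r ≤ 2 * (Fu w a.1).card + (Sh w a.1).card := by nlinarith
    have h3 := card_FS w a.1 a.2.2
    have h4 := hF a ha
    have h5 : ¬ (Sh w a.1).card ≤ 1 := by
      intro h
      have := hg a ha h
      omega
    omega
  -- the minimal shared exponent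
  have hex : ∃ n, ∃ b ∈ S, ∃ x, x ∈ Sh w b.1 ∧ b.1 x = n := by
    obtain ⟨b, hb⟩ := Multiset.card_pos_iff_exists_mem.1 (by omega : 0 < S.card)
    obtain ⟨x, hx⟩ := card_pos.1 (by rw [(hF2 b hb).2]; norm_num : 0 < (Sh w b.1).card)
    exact ⟨_, b, hb, x, hx, rfl⟩
  classical
  obtain ⟨b, hb, x, hx, hbx⟩ := Nat.find_spec hex
  have hmin : ∀ a ∈ S, ∀ y ∈ Sh w a.1, b.1 x ≤ a.1 y := by
    intro a ha y hy
    rw [hbx]
    exact Nat.find_min' hex ⟨a, ha, y, hy, rfl⟩
  clear hbx
  obtain ⟨R, rfl⟩ := Multiset.exists_cons_of_mem hb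
  have hxs := mem_filter.1 hx
  have hx2 := hT2 x hxs.1
  rw [Multiset.map_cons, Multiset.sum_cons] at hx2
  have hcb : cc (b.1 x) (w x) = 1 := by
    unfold cc; rw [if_neg hxs.2.1, if_neg hxs.2.2]
  obtain ⟨a, A, rfl, ha1, hA⟩ := sum_one (fun a : G ι d (r + 1) => cc (a.1 x) (w x)) R
    (by omega)
  have haS : a ∈ b ::ₘ a ::ₘ A := by simp
  have hax : a.1 x ≠ w x ∧ a.1 x ≠ 0 := by
    constructor
    · intro h; simp [cc, h] at ha1
    · intro h
      simp only [cc, h] at ha1
      split_ifs at ha1 <;> omega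
  have haxS : x ∈ Sh w a.1 := mem_filter.2 ⟨hxs.1, hax⟩
  have hwx : w x = a.1 x + b.1 x := by
    have h1 := hap x
    have h2 : (A.map (fun m => m.1 x)).sum = 0 := Multiset.sum_eq_zero (by
      intro n hn
      obtain ⟨a', ha', rfl⟩ := Multiset.mem_map.1 hn
      by_contra hne
      have := cc_pos (W := w x) hne
      have := hA a' ha'
      omega)
    rw [Multiset.map_cons, Multiset.sum_cons, Multiset.map_cons, Multiset.sum_cons, h2] at h1
    omega
  obtain ⟨z0, hz0, hz0x⟩ : ∃ z0 ∈ Sh w a.1, z0 ≠ x := by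
    have h2 := (hF2 a haS).2
    exact exists_mem_ne (by omega) x
  have hz0s := mem_filter.1 hz0
  have hSh : Sh w a.1 = {x, z0} := by
    symm
    apply eq_of_subset_of_card_le
    · intro i hi
      rw [mem_insert, mem_singleton] at hi
      rcases hi with rfl | rfl
      · exact haxS
      · exact hz0
    · rw [(hF2 a haS).2, card_pair (Ne.symm hz0x)]
  have hle2 : b.1 x ≤ a.1 z0 := hmin a haS z0 hz0
  -- the new blocks
  let a' : ι → ℕ := fun i => if i = x then w x else if i = z0 then a.1 z0 - b.1 x else a.1 i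
  let b' : ι → ℕ := fun i => if i = x then 0 else if i = z0 then b.1 z0 + b.1 x else b.1 i
  have ea : ∑ i, a' i = d := by
    have h1 : ∀ i, a' i + (if i = z0 then b.1 x else 0) = a.1 i + (if i = x then b.1 x else 0) := by
      intro i
      simp only [a']
      by_cases h1 : i = x
      · subst h1
        simp [Ne.symm hz0x, hwx]
      · by_cases h2 : i = z0
        · subst h2
          simp only [h1, if_false, if_true]
          omega
        · simp [h1, h2]
    have h2 := sum_congr rfl (fun i (_ : i ∈ (univ : Finset ι)) => h1 i)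
    rw [sum_add_distrib, sum_add_distrib, sum_ite_eq', sum_ite_eq', a.2.1] at h2
    simp at h2
    exact h2
  have eb : ∑ i, b' i = d := by
    have h1 : ∀ i, b' i + (if i = x then b.1 x else 0) = b.1 i + (if i = z0 then b.1 x else 0) := by
      intro i
      simp only [b']
      by_cases h1 : i = x
      · subst h1
        simp [Ne.symm hz0x]
      · by_cases h2 : i = z0
        · subst h2
          simp [h1]
        · simp [h1, h2]
    have h2 := sum_congr rfl (fun i (_ : i ∈ (univ : Finset ι)) => h1 i)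
    rw [sum_add_distrib, sum_add_distrib, sum_ite_eq', sum_ite_eq', b.2.1] at h2
    simp at h2
    exact h2
  have sa : (univ.filter (fun i => a' i ≠ 0)).card ≤ r + 1 := by
    refine le_trans (card_le_card ?_) a.2.2
    intro i hi
    simp only [mem_filter, mem_univ, true_and, a'] at hi ⊢
    by_cases h1 : i = x
    · rw [h1]; exact hax.2
    · by_cases h2 : i = z0
      · rw [h2]; exact hz0s.2.2
      · simpa [h1, h2] using hi
  have sb : (univ.filter (fun i => b' i ≠ 0)).card ≤ r + 1 := by
    have hxb : x ∈ univ.filter (fun i => b.1 i ≠ 0) := by simp [hxs.2.2]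
    have h1 : univ.filter (fun i => b' i ≠ 0) ⊆
        insert z0 ((univ.filter (fun i => b.1 i ≠ 0)).erase x) := by
      intro i hi
      simp only [mem_filter, mem_univ, true_and, b'] at hi
      rw [mem_insert, mem_erase]
      by_cases h1 : i = x
      · simp [h1] at hi
      · by_cases h2 : i = z0
        · exact Or.inl h2
        · right
          refine ⟨h1, ?_⟩
          simp only [mem_filter, mem_univ, true_and]
          simpa [h1, h2] using hi
    refine (card_le_card h1).trans ((card_insert_le _ _).trans ?_)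
    rw [card_erase_of_mem hxb]
    have := b.2.2
    have : 0 < (univ.filter (fun i => b.1 i ≠ 0)).card := card_pos.2 ⟨x, hxb⟩
    omega
  let ga : G ι d (r + 1) := ⟨a', ea, sa⟩
  let gb : G ι d (r + 1) := ⟨b', eb, sb⟩
  have hadd : a.1 + b.1 = ga.1 + gb.1 := by
    funext i
    simp only [Pi.add_apply, ga, gb, a', b']
    by_cases h1 : i = x
    · subst h1; simp [hwx]
    · by_cases h2 : i = z0
      · subst h2
        simp only [h1, if_false, if_true]
        omega
      · simp [h1, h2]
  have hxF : x ∉ Fu w a.1 := fun h => hax.1 (mem_filter.1 h).2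
  have hzF : z0 ∉ Fu w a.1 := fun h => hz0s.2.1 (mem_filter.1 h).2
  have hnode := node_of w D a' ea (insert x (Fu w a.1)) z0
    (insert_subset (hspD hxs.1) ((filter_subset _ _).trans hspD)) (hspD hz0s.1)
    (by rw [mem_insert, not_or]; exact ⟨hz0x, hzF⟩)
    (r := r) (by rw [card_insert_of_notMem hxF]; exact (hF2 a haS).1)
    (by
      intro i hi
      rcases mem_insert.1 hi with rfl | h
      · simp [a']
      · have h1 : i ≠ x := fun e => hxF (e ▸ h)
        have h2 : i ≠ z0 := fun e => hzF (e ▸ h)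
        simp only [a', h1, h2, if_false]
        exact (mem_filter.1 h).2)
    (by
      intro i hi hiz
      rw [mem_insert, not_or] at hi
      simp only [a', hi.1, hiz, if_false]
      by_contra h
      have hwi : w i ≠ 0 := by have := hle a haS i; omega
      have hsp : i ∈ sp w := by simp [sp, hwi]
      by_cases h3 : a.1 i = w i
      · exact hi.2 (by simp [Fu, hsp, h3])
      · have : i ∈ Sh w a.1 := by simp [Sh, hsp, h3, h]
        rw [hSh, mem_insert, mem_singleton] at this
        rcases this with h | h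
        · exact hi.1 h
        · exact hiz h)
    (by
      have := hle a haS z0
      simp only [a', hz0x, if_false, if_true]
      omega)
  refine ⟨(insert x (Fu w a.1), z0), ga, ga ::ₘ gb ::ₘ A, by simp, hnode.1, hnode.2, ?_⟩
  rw [Multiset.cons_swap]
  exact Relation.EqvGen.rel _ _ (Mv.mk a b ga gb A hadd)

end Pool.Agent.Helper97.PQ.CNT
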