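import Pool.Agent.Helper97.PQ.Chk

set_option autoImplicit false
set_option maxRecDepth 100000

namespace Pool.Agent.Helper97.PQ.E10

open Pool.Agent.Helper42.PQ Pool.Agent.Helper97.PQ.Chk

/-- the valid types for `N = 4` -/
def T4 : List (List ℕ) :=
  [[1, 1, 1]]

/-- the valid types for `N = 5` -/
def T5 : List (List ℕ) :=
  [[1, 1, 2],
   [3, 3, 3],
   [1, 1, 1, 1]]

/-- the valid types for `N = 6` -/
def T6 : List (List ℕ) :=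
  [[1, 1, 3],
   [1, 2, 2],
   [3, 4, 4],
   [1, 1, 1, 2],
   [1, 1, 1, 1, 1]]

/-- the valid types for `N = 7` -/
def T7 : List (List ℕ) :=
  [[1, 1, 4],
   [1, 2, 3],
   [2, 2, 2],
   [3, 5, 5],
   [4, 4, 5],
   [1, 1, 1, 3],
   [1, 1, 2, 2],
   [1, 4, 4, 4],
   [5, 5, 5, 5],
   [1, 1, 1, 1, 2],
   [4, 4, 4, 4, 4],
   [1, 1, 1, 1, 1, 1]]

/-- the valid types for `N = 8` -/
def T8 : List (List ℕ) :=
  [[1, 1, 5],
   [1, 2, 4],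
   [1, 3, 3],
   [2, 2, 3],
   [3, 6, 6],
   [4, 5, 6],
   [5, 5, 5],
   [1, 1, 1, 4],
   [1, 1, 2, 3],
   [1, 2, 2, 2],
   [1, 4, 5, 5],
   [3, 3, 3, 6],
   [5, 6, 6, 6],
   [1, 1, 1, 1, 3],
   [1, 1, 1, 2, 2],
   [3, 3, 3, 3, 3],
   [1, 1, 1, 1, 1, 2],
   [1, 1, 1, 1, 1, 1, 1]]

/-- the valid types for `N = 9` -/
def T9 : List (List ℕ) :=
  [[1, 1, 6],
   [1, 2, 5],
   [1, 3, 4],
   [2, 2, 4],
   [2, 3, 3],
   [3, 7, 7],
   [4, 6, 7],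
   [5, 5, 7],
   [5, 6, 6],
   [1, 1, 1, 5],
   [1, 1, 2, 4],
   [1, 1, 3, 3],
   [1, 2, 2, 3],
   [1, 4, 6, 6],
   [1, 5, 5, 6],
   [2, 2, 2, 2],
   [2, 5, 5, 5],
   [3, 3, 4, 7],
   [5, 7, 7, 7],
   [6, 6, 7, 7],
   [1, 1, 1, 1, 4],
   [1, 1, 1, 2, 3],
   [1, 1, 2, 2, 2],
   [1, 1, 5, 5, 5],
   [5, 5, 5, 5, 6],
   [7, 7, 7, 7, 7],
   [1, 1, 1, 1, 1, 3],
   [1, 1, 1, 1, 2, 2],
   [1, 5, 5, 5, 5, 5],
   [1, 1, 1, 1, 1, 1, 2],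
   [5, 5, 5, 5, 5, 5, 5],
   [1, 1, 1, 1, 1, 1, 1, 1]]

/-- the valid types for `N = 10` -/
def T10 : List (List ℕ) :=
  [[1, 1, 7],
   [1, 2, 6],
   [1, 3, 5],
   [1, 4, 4],
   [2, 2, 5],
   [2, 3, 4],
   [3, 3, 3],
   [3, 8, 8],
   [4, 7, 8],
   [5, 6, 8],
   [5, 7, 7],
   [6, 6, 7],
   [1, 1, 1, 6],
   [1, 1, 2, 5],
   [1, 1, 3, 4],
   [1, 2, 2, 4],
   [1, 2, 3, 3],
   [1, 4, 7, 7],
   [1, 5, 6, 7],
   [1, 6, 6, 6],
   [2, 2, 2, 3],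
   [2, 5, 6, 6],
   [3, 3, 5, 8],
   [3, 4, 4, 8],
   [4, 4, 4, 7],
   [5, 8, 8, 8],
   [6, 7, 8, 8],
   [7, 7, 7, 8],
   [1, 1, 1, 1, 5],
   [1, 1, 1, 2, 4],
   [1, 1, 1, 3, 3],
   [1, 1, 2, 2, 3],
   [1, 1, 5, 6, 6],
   [1, 2, 2, 2, 2],
   [1, 7, 7, 7, 7],
   [3, 4, 4, 4, 4],
   [4, 4, 7, 7, 7],
   [5, 6, 6, 6, 6],
   [7, 8, 8, 8, 8],
   [1, 1, 1, 1, 1, 4],
   [1, 1, 1, 1, 2, 3],
   [1, 1, 1, 2, 2, 2],
   [4, 7, 7, 7, 7, 7],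
   [1, 1, 1, 1, 1, 1, 3],
   [1, 1, 1, 1, 1, 2, 2],
   [7, 7, 7, 7, 7, 7, 7],
   [1, 1, 1, 1, 1, 1, 1, 2],
   [1, 1, 1, 1, 1, 1, 1, 1, 1]]


def tt (_ : ℕ) : Bool := true

lemma go1 (N B : ℕ) (hN : 0 < N) (T : List (List ℕ)) (r : List Bool) (h1 : chkT N tt T = true)
    (h2 : (go N tt T r (cells1 N tt T)).isEmpty = true)
    (F : Set (Set (ℕ × Multiset ℕ × Multiset ℕ))) (hF : ClosedFam N B F) : ∀ C ∈ F, C = ∅ :=
  run tt tt T r hN (fun _ _ _ _ => rfl) (fun _ _ => rfl) h1 h2 hF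
    (fun _ _ _ _ _ _ => ⟨rfl, rfl⟩)

lemma c2 : chkT 2 tt [] = true := by decide +kernel
lemma d2 : (go 2 tt [] [] (cells1 2 tt [])).isEmpty = true := by decide +kernel
lemma c3 : chkT 3 tt [] = true := by decide +kernel
lemma d3 : (go 3 tt [] [] (cells1 3 tt [])).isEmpty = true := by decide +kernel
lemma c4 : chkT 4 tt T4 = true := by decide +kernel
lemma d4 : (go 4 tt T4 [] (cells1 4 tt T4)).isEmpty = true := by decide +kernel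
lemma c5 : chkT 5 tt T5 = true := by decide +kernel
lemma d5 : (go 5 tt T5 [] (cells1 5 tt T5)).isEmpty = true := by decide +kernel
lemma c6 : chkT 6 tt T6 = true := by decide +kernel
lemma d6 : (go 6 tt T6 [] (cells1 6 tt T6)).isEmpty = true := by decide +kernel
lemma c7 : chkT 7 tt T7 = true := by decide +kernel
lemma d7 : (go 7 tt T7 [] (cells1 7 tt T7)).isEmpty = true := by decide +kernel
lemma c8 : chkT 8 tt T8 = true := by decide +kernel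
lemma d8 : (go 8 tt T8 [false] (cells1 8 tt T8)).isEmpty = true := by decide +kernel
lemma c9 : chkT 9 tt T9 = true := by decide +kernel
lemma d9 : (go 9 tt T9 [false, false, false] (cells1 9 tt T9)).isEmpty = true := by
  decide +kernel
lemma c10 : chkT 10 tt T10 = true := by decide +kernel
lemma d10 : (go 10 tt T10 [false, false, false, true] (cells1 10 tt T10)).isEmpty = true := by
  decide +kernel

theorem main : S_E10 := by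
  intro N B h2 h10 F hF
  have h : N = 2 ∨ N = 3 ∨ N = 4 ∨ N = 5 ∨ N = 6 ∨ N = 7 ∨ N = 8 ∨ N = 9 ∨ N = 10 := by omega
  rcases h with rfl | rfl | rfl | rfl | rfl | rfl | rfl | rfl | rfl
  · exact go1 2 B (by norm_num) _ _ c2 d2 F hF
  · exact go1 3 B (by norm_num) _ _ c3 d3 F hF
  · exact go1 4 B (by norm_num) _ _ c4 d4 F hF
  · exact go1 5 B (by norm_num) _ _ c5 d5 F hF
  · exact go1 6 B (by norm_num) _ _ c6 d6 F hF
  · exact go1 7 B (by norm_num) _ _ c7 d7 F hF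
  · exact go1 8 B (by norm_num) _ _ c8 d8 F hF
  · exact go1 9 B (by norm_num) _ _ c9 d9 F hF
  · exact go1 10 B (by norm_num) _ _ c10 d10 F hF

end Pool.Agent.Helper97.PQ.E10
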