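import Pool.Agent.Helper97.PQ.Chk

set_option autoImplicit false
set_option maxRecDepth 100000

namespace Pool.Agent.Helper97.PQ.E11

open Pool.Agent.Helper42.PQ Pool.Agent.Helper97.PQ.Chk

/-- the valid types for `N = 11` with sum at most `21` -/
def T11 : List (List ℕ) :=
  [[1, 1, 8],
   [1, 2, 7],
   [1, 3, 6],
   [1, 4, 5],
   [2, 2, 6],
   [2, 3, 5],
   [2, 4, 4],
   [3, 3, 4],
   [3, 9, 9],
   [4, 8, 9],
   [5, 7, 9],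
   [5, 8, 8],
   [6, 6, 9],
   [6, 7, 8],
   [7, 7, 7],
   [1, 1, 1, 7],
   [1, 1, 2, 6],
   [1, 1, 3, 5],
   [1, 1, 4, 4],
   [1, 2, 2, 5],
   [1, 2, 3, 4],
   [1, 3, 3, 3],
   [1, 4, 8, 8],
   [1, 5, 7, 8],
   [1, 6, 6, 8],
   [1, 6, 7, 7],
   [2, 2, 2, 4],
   [2, 2, 3, 3],
   [2, 5, 7, 7],
   [2, 6, 6, 7],
   [3, 3, 6, 9],
   [3, 4, 5, 9],
   [3, 6, 6, 6],
   [4, 4, 4, 9],
   [4, 4, 5, 8],
   [1, 1, 1, 1, 6],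
   [1, 1, 1, 2, 5],
   [1, 1, 1, 3, 4],
   [1, 1, 2, 2, 4],
   [1, 1, 2, 3, 3],
   [1, 1, 5, 7, 7],
   [1, 1, 6, 6, 7],
   [1, 2, 2, 2, 3],
   [1, 2, 6, 6, 6],
   [1, 4, 4, 4, 8],
   [2, 2, 2, 2, 2],
   [3, 3, 3, 3, 9],
   [3, 3, 3, 6, 6],
   [4, 4, 4, 4, 5],
   [1, 1, 1, 1, 1, 5],
   [1, 1, 1, 1, 2, 4],
   [1, 1, 1, 1, 3, 3],
   [1, 1, 1, 2, 2, 3],
   [1, 1, 1, 6, 6, 6],
   [1, 1, 2, 2, 2, 2],
   [1, 4, 4, 4, 4, 4],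
   [3, 3, 3, 3, 3, 6],
   [1, 1, 1, 1, 1, 1, 4],
   [1, 1, 1, 1, 1, 2, 3],
   [1, 1, 1, 1, 2, 2, 2],
   [3, 3, 3, 3, 3, 3, 3],
   [1, 1, 1, 1, 1, 1, 1, 3],
   [1, 1, 1, 1, 1, 1, 2, 2],
   [1, 1, 1, 1, 1, 1, 1, 1, 2],
   [1, 1, 1, 1, 1, 1, 1, 1, 1, 1]]


def pb (s : ℕ) : Bool := Nat.ble s 21
def sb (s : ℕ) : Bool := Nat.ble s 31

lemma c11 : chkT 11 pb T11 = true := by decide +kernel
lemma d11 : (go 11 sb T11 [false, false, false, false, false, false, false, true]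
    (cells1 11 sb T11)).isEmpty = true := by
  decide +kernel

theorem main : S_E11 := by
  intro F hF hs
  refine run pb sb T11 _ (by norm_num) (fun s s' h h' => ?_) (fun s hs => ?_) c11 d11 hF
    (fun C hC a τ γ h => ?_)
  · simp only [pb, Nat.ble_eq] at *
    omega
  · simp only [sb, Nat.ble_eq]
    exact hs
  · have := hs C hC a τ γ h
    simp only [pb, Nat.ble_eq]
    exact this

end Pool.Agent.Helper97.PQ.E11
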