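import Pool.Agent.Helper42.PQ.Spec

set_option autoImplicit false
set_option linter.unusedSectionVars false

/-!
A verified checker for closed families of cells.
-/

namespace Pool.Agent.Helper97.PQ.Chk

open Pool.Agent.Helper42.PQ

/-! ### masks of subset sums -/

def rot (N a m : ℕ) : ℕ := ((m <<< a) ||| (m >>> (N - a))) % 2 ^ N

def ms (N : ℕ) : List ℕ → ℕ
  | [] => 1
  | a :: l => ms N l ||| rot N a (ms N l)

lemma rot_sound {N a m s : ℕ} (ha : a < N) (_hm : ∀ s, m.testBit s = true → s < N)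
    (h : (rot N a m).testBit s = true) : s < N ∧ ∃ s', m.testBit s' = true ∧ (a + s') % N = s := by
  unfold rot at h
  rw [Nat.testBit_mod_two_pow, Bool.and_eq_true, decide_eq_true_iff, Nat.testBit_or,
    Nat.testBit_shiftLeft, Nat.testBit_shiftRight, Bool.or_eq_true, Bool.and_eq_true,
    decide_eq_true_iff] at h
  obtain ⟨h1, h2⟩ := h
  refine ⟨h1, ?_⟩
  rcases h2 with ⟨h2, h3⟩ | h2
  · refine ⟨s - a, h3, ?_⟩
    rw [Nat.add_sub_cancel' h2]
    exact Nat.mod_eq_of_lt h1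
  · refine ⟨N - a + s, h2, ?_⟩
    rw [← add_assoc, Nat.add_sub_cancel' ha.le, Nat.add_mod_left]
    exact Nat.mod_eq_of_lt h1

lemma ms_sound {N : ℕ} (hN : 0 < N) (l : List ℕ) : (∀ a ∈ l, a < N) → ∀ s,
    (ms N l).testBit s = true → s < N ∧ ∃ σ ≤ (l : Multiset ℕ), σ.sum % N = s := by
  induction l with
  | nil =>
    intro _ s hs
    have : s = 0 := by
      by_contra h
      obtain ⟨t, rfl⟩ := Nat.exists_eq_succ_of_ne_zero h
      simp [ms, Nat.testBit_succ] at hs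
    subst this
    exact ⟨hN, 0, le_rfl, by simp⟩
  | cons a l ih =>
    intro hl s hs
    have ih' := ih (fun b hb => hl b (List.mem_cons_of_mem _ hb))
    rw [ms, Nat.testBit_or, Bool.or_eq_true] at hs
    rcases hs with hs | hs
    · obtain ⟨h1, σ, h2, h3⟩ := ih' s hs
      exact ⟨h1, σ, h2.trans (Multiset.le_cons_self _ _), h3⟩
    · obtain ⟨h1, s', h2, h3⟩ := rot_sound (hl a (by simp)) (fun s hs => (ih' s hs).1) hs
      obtain ⟨h4, σ, h5, h6⟩ := ih' s' h2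
      refine ⟨h1, a ::ₘ σ, ?_, ?_⟩
      · rw [← Multiset.cons_coe]; exact Multiset.cons_le_cons _ h5
      · rw [Multiset.sum_cons, ← h3, ← h6, Nat.add_mod_mod]

/-! ### enumeration of the types -/

def ext (N : ℕ) (pb : ℕ → Bool) (l : List ℕ) : List (List ℕ) :=
  ((List.range N).filter (fun a => Nat.ble 1 a && Nat.ble a (l.headD N) &&
    !(Nat.testBit (ms N l) (N - a)) && pb (a + l.sum))).map (fun a => a :: l)

def lev (N : ℕ) (pb : ℕ → Bool) : ℕ → List (List ℕ)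
  | 0 => [[]]
  | n + 1 => (lev N pb n).flatMap (ext N pb)

lemma lev_mono {N : ℕ} {pb : ℕ → Bool} {n : ℕ} (h : lev N pb n = []) (k : ℕ) :
    lev N pb (n + k) = [] := by
  induction k with
  | zero => exact h
  | succ k ih => rw [← add_assoc, lev, ih]; rfl

lemma mem_lev {N : ℕ} {pb : ℕ → Bool} (hN : 0 < N) (hpb : ∀ s s', s ≤ s' → pb s' = true → pb s = true)
    (l : List ℕ) : l.Pairwise (· ≤ ·) → (∀ a ∈ l, 1 ≤ a ∧ a < N) →
    (∀ σ ≤ (l : Multiset ℕ), σ ≠ 0 → ¬ N ∣ σ.sum) → pb l.sum = true → l ∈ lev N pb l.length := by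
  induction l with
  | nil => intro _ _ _ _; simp [lev]
  | cons a l ih =>
    intro hs hr hz hp
    have h1 : l ∈ lev N pb l.length := by
      refine ih (List.Pairwise.of_cons hs) (fun b hb => hr b (List.mem_cons_of_mem _ hb)) ?_ ?_
      · intro σ hσ
        exact hz σ (hσ.trans (by rw [← Multiset.cons_coe]; exact Multiset.le_cons_self _ _))
      · refine hpb _ _ ?_ hp
        simp
    have ha := hr a (by simp)
    rw [List.length_cons, lev, List.mem_flatMap]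
    refine ⟨l, h1, ?_⟩
    rw [ext, List.mem_map]
    refine ⟨a, ?_, rfl⟩
    rw [List.mem_filter, List.mem_range]
    refine ⟨ha.2, ?_⟩
    simp only [Bool.and_eq_true, Nat.ble_eq, Bool.not_eq_true']
    refine ⟨⟨⟨ha.1, ?_⟩, ?_⟩, ?_⟩
    · cases l with
      | nil => exact ha.2.le
      | cons b l => exact List.rel_of_pairwise_cons hs (by simp)
    · by_contra hne
      rw [Bool.not_eq_false] at hne
      obtain ⟨h2, σ, h3, h4⟩ := ms_sound hN l (fun b hb => (hr b (List.mem_cons_of_mem _ hb)).2) _ hne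
      refine hz (a ::ₘ σ) (by rw [← Multiset.cons_coe]; exact Multiset.cons_le_cons _ h3)
        (by simp) ?_
      rw [Multiset.sum_cons, Nat.dvd_iff_mod_eq_zero, Nat.add_mod, h4, Nat.mod_eq_of_lt ha.2,
        Nat.add_sub_cancel' ha.2.le, Nat.mod_self]
    · simpa using hp

/-- check of the list of types -/
def chkT (N : ℕ) (pb : ℕ → Bool) (T : List (List ℕ)) : Bool :=
  (lev N pb N).isEmpty && (List.range N).all (fun n => (lev N pb n).all (fun l =>
    !(Nat.ble 3 l.length && (l.sum + 1) % N == 0) || T.contains l))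

lemma chkT_sound {N : ℕ} {pb : ℕ → Bool} {T : List (List ℕ)} (hN : 0 < N)
    (hpb : ∀ s s', s ≤ s' → pb s' = true → pb s = true) (h : chkT N pb T = true)
    (τ : Multiset ℕ) (hτ : ValT N τ) (hp : pb τ.sum = true) :
    ∃ l ∈ T, (l : Multiset ℕ) = τ := by
  classical
  obtain ⟨h1, h2, h3, h4⟩ := hτ
  set l := τ.sort (· ≤ ·) with hl
  have el : (l : Multiset ℕ) = τ := Multiset.sort_eq _ _
  rw [chkT, Bool.and_eq_true, List.isEmpty_iff, List.all_eq_true] at h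
  have hm : l ∈ lev N pb l.length := by
    refine mem_lev hN hpb l (Multiset.pairwise_sort _ _) ?_ ?_ ?_
    · intro a ha
      exact h1 a (by rw [← el]; exact ha)
    · rw [el]; exact h2
    · rw [← Multiset.sum_coe, el]; exact hp
  have hlen : l.length < N := by
    by_contra hc
    have := lev_mono h.1 (l.length - N)
    rw [Nat.add_sub_cancel' (by omega)] at this
    rw [this] at hm
    simp at hm
  have h5 := h.2 l.length (List.mem_range.2 hlen)
  rw [List.all_eq_true] at h5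
  have h6 := h5 l hm
  have h7 : l.length = τ.card := by rw [← el]; rfl
  have h8 : l.sum = τ.sum := by rw [← el]; simp
  have h9 : (τ.sum + 1) % N = 0 := Nat.mod_eq_zero_of_dvd h3
  rw [h7, h8, h9] at h6
  have h10 : Nat.ble 3 τ.card = true := by rw [Nat.ble_eq]; exact h4
  rw [h10] at h6
  simp at h6
  exact ⟨l, h6, el⟩

/-! ### cells -/

section
variable (N : ℕ) (sb : ℕ → Bool) (T : List (List ℕ))

def lk (i : ℕ) : List ℕ := T.getD i []

def cmB (a i b i' : ℕ) : Bool :=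
  ((rot N a (ms N ((lk T i).erase a)) &&& ms N ((lk T i').erase b)) == 0 &&
    (ms N ((lk T i).erase a) &&& rot N b (ms N ((lk T i').erase b))) == 0) &&
    sb ((lk T i).sum + (lk T i').sum)

def good0 (a i b : ℕ) : Bool :=
  (List.range T.length).any (fun i' => (lk T i').contains b && cmB N sb T a i b i')

def cells1 : List (ℕ × ℕ × ℕ) :=
  (List.range T.length).flatMap fun i => (List.range T.length).flatMap fun j =>
    ((lk T i).dedup.filter (fun a => (lk T j).contains a &&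
      (((lk T j).erase a).all (good0 N sb T a i) && ((lk T i).erase a).all (good0 N sb T a j)))).map
      (fun a => (a, i, j))

def cand2 (A : List (ℕ × ℕ × ℕ)) (a i j b : ℕ) : List (ℕ × ℕ × ℕ) :=
  A.filter (fun c => Nat.beq c.1 b && Nat.beq c.2.2 j && cmB N sb T a i b c.2.1)

def cand3 (A : List (ℕ × ℕ × ℕ)) (a i j b : ℕ) : List (ℕ × ℕ × ℕ) :=
  A.filter (fun c => Nat.beq c.1 b && Nat.beq c.2.1 i && cmB N sb T a j b c.2.2)

def alive2 (A : List (ℕ × ℕ × ℕ)) (c : ℕ × ℕ × ℕ) : Bool :=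
  ((lk T c.2.2).erase c.1).all (fun b => !(cand2 N sb T A c.1 c.2.1 c.2.2 b).isEmpty) &&
  ((lk T c.2.1).erase c.1).all (fun b => !(cand3 N sb T A c.1 c.2.1 c.2.2 b).isEmpty)

def sing (l : List (ℕ × ℕ × ℕ)) : List (ℕ × ℕ × ℕ) :=
  match l with
  | [y] => [y]
  | _ => []

def forced (A s : List (ℕ × ℕ × ℕ)) : List (ℕ × ℕ × ℕ) :=
  (s ++ s.flatMap (fun c => ((lk T c.2.2).erase c.1).flatMap
      (fun b => sing (cand2 N sb T A c.1 c.2.1 c.2.2 b)) ++
    ((lk T c.2.1).erase c.1).flatMap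
      (fun b => sing (cand3 N sb T A c.1 c.2.1 c.2.2 b)))).dedup

def dead4 (A : List (ℕ × ℕ × ℕ)) (c : ℕ × ℕ × ℕ) : Bool :=
  (forced N sb T A (forced N sb T A (forced N sb T A (forced N sb T A [c])))).any fun x =>
    (forced N sb T A (forced N sb T A (forced N sb T A (forced N sb T A [c])))).any fun y =>
      Nat.beq x.1 y.1 && !((lk T x.2.1).isPerm (lk T y.2.1)) &&
        !((lk T x.2.2).isPerm (lk T y.2.2)) && !(A.contains (x.1, x.2.1, y.2.2))

def go : List Bool → List (ℕ × ℕ × ℕ) → List (ℕ × ℕ × ℕ)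
  | [], A => A
  | false :: r, A => go r (A.filter (alive2 N sb T A))
  | true :: r, A => go r (A.filter (fun c => !dead4 N sb T A c))

end

section sound
variable {N B : ℕ} {sb : ℕ → Bool} {T : List (List ℕ)}

lemma cmB_sound (hN : 0 < N) (hsb : ∀ s ≤ B, sb s = true) {a i b i' : ℕ}
    (h1 : ValT N (lk T i : Multiset ℕ)) (h2 : ValT N (lk T i' : Multiset ℕ))
    (ha : a ∈ lk T i) (hb : b ∈ lk T i')
    (hc : cmpt N a (lk T i : Multiset ℕ) b (lk T i' : Multiset ℕ))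
    (hB : (lk T i : Multiset ℕ).sum + (lk T i' : Multiset ℕ).sum ≤ B) :
    cmB N sb T a i b i' = true := by
  have e1 : ∀ x ∈ (lk T i).erase a, x < N := fun x hx => (h1.1 x (List.mem_of_mem_erase hx)).2
  have e2 : ∀ x ∈ (lk T i').erase b, x < N := fun x hx => (h2.1 x (List.mem_of_mem_erase hx)).2
  have s1 := ms_sound hN _ e1
  have s2 := ms_sound hN _ e2
  have haN := (h1.1 a ha).2
  have hbN := (h2.1 b hb).2
  rw [cmB, Bool.and_eq_true, Bool.and_eq_true]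
  refine ⟨⟨?_, ?_⟩, ?_⟩
  · rw [beq_iff_eq]
    by_contra hne
    obtain ⟨s, hs⟩ := Nat.exists_testBit_of_ne_zero hne
    rw [Nat.testBit_and, Bool.and_eq_true] at hs
    obtain ⟨_, s', h3, h4⟩ := rot_sound haN (fun s hs => (s1 s hs).1) hs.1
    obtain ⟨_, σ, h5, h6⟩ := s1 s' h3
    obtain ⟨_, σ', h7, h8⟩ := s2 s hs.2
    have := (hc σ (by rw [Multiset.coe_erase]; exact h5) σ' (by rw [Multiset.coe_erase]; exact h7)).1
    apply this
    show (a + σ.sum) % N = σ'.sum % N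
    rw [h8, ← h4, ← h6, Nat.add_mod_mod]
  · rw [beq_iff_eq]
    by_contra hne
    obtain ⟨s, hs⟩ := Nat.exists_testBit_of_ne_zero hne
    rw [Nat.testBit_and, Bool.and_eq_true] at hs
    obtain ⟨_, s', h3, h4⟩ := rot_sound hbN (fun s hs => (s2 s hs).1) hs.2
    obtain ⟨_, σ, h5, h6⟩ := s1 s hs.1
    obtain ⟨_, σ', h7, h8⟩ := s2 s' h3
    have := (hc σ (by rw [Multiset.coe_erase]; exact h5) σ' (by rw [Multiset.coe_erase]; exact h7)).2
    apply this
    show σ.sum % N = (b + σ'.sum) % N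
    rw [h6, ← h4, ← h8, Nat.add_mod_mod]
  · exact hsb _ (by simpa using hB)

variable {F : Set (Set (ℕ × Multiset ℕ × Multiset ℕ))}

/-- the cells of `C` are in the list -/
def In (T : List (List ℕ)) (A : List (ℕ × ℕ × ℕ)) (C : Set (ℕ × Multiset ℕ × Multiset ℕ)) : Prop :=
  ∀ a i j, i < T.length → j < T.length →
    (a, (lk T i : Multiset ℕ), (lk T j : Multiset ℕ)) ∈ C → (a, i, j) ∈ A

variable (hN : 0 < N) (hsb : ∀ s ≤ B, sb s = true) (hF : ClosedFam N B F)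
  (hT : ∀ C ∈ F, ∀ a τ γ, (a, τ, γ) ∈ C →
    (∃ i < T.length, (lk T i : Multiset ℕ) = τ) ∧ (∃ i < T.length, (lk T i : Multiset ℕ) = γ))

include hN hsb hF hT

/-- the column neighbour -/
lemma nb2 {C} (hC : C ∈ F) {a i j : ℕ}
    (h : (a, (lk T i : Multiset ℕ), (lk T j : Multiset ℕ)) ∈ C) {b : ℕ}
    (hb : b ∈ (lk T j).erase a) : ∃ i' < T.length,
      (b, (lk T i' : Multiset ℕ), (lk T j : Multiset ℕ)) ∈ C ∧ cmB N sb T a i b i' = true ∧
      b ∈ lk T i' := by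
  obtain ⟨h1, h2, -, -⟩ := hF C hC _ _ _ h
  obtain ⟨τ', h3, h4, h5⟩ := h2 b (by rw [Multiset.coe_erase]; exact hb)
  obtain ⟨⟨i', hi', rfl⟩, -⟩ := hT C hC _ _ _ h3
  have h6 := (hF C hC _ _ _ h3).1
  exact ⟨i', hi', h3, cmB_sound hN hsb h1.2.2.1 h6.2.2.1 h1.1 h6.1 h4 h5, h6.1⟩

lemma nb3 {C} (hC : C ∈ F) {a i j : ℕ}
    (h : (a, (lk T i : Multiset ℕ), (lk T j : Multiset ℕ)) ∈ C) {b : ℕ}
    (hb : b ∈ (lk T i).erase a) : ∃ j' < T.length,
      (b, (lk T i : Multiset ℕ), (lk T j' : Multiset ℕ)) ∈ C ∧ cmB N sb T a j b j' = true ∧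
      b ∈ lk T j' := by
  obtain ⟨h1, -, h2, -⟩ := hF C hC _ _ _ h
  obtain ⟨γ', h3, h4, h5⟩ := h2 b (by rw [Multiset.coe_erase]; exact hb)
  obtain ⟨-, ⟨j', hj', rfl⟩⟩ := hT C hC _ _ _ h3
  have h6 := (hF C hC _ _ _ h3).1
  exact ⟨j', hj', h3, cmB_sound hN hsb h1.2.2.2 h6.2.2.2 h1.2.1 h6.2.1 h4 h5, h6.2.1⟩

lemma in_cells1 {C} (hC : C ∈ F) : In T (cells1 N sb T) C := by
  intro a i j hi hj h
  have h1 := (hF C hC _ _ _ h).1
  rw [cells1, List.mem_flatMap]
  refine ⟨i, List.mem_range.2 hi, ?_⟩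
  rw [List.mem_flatMap]
  refine ⟨j, List.mem_range.2 hj, ?_⟩
  rw [List.mem_map]
  refine ⟨a, ?_, rfl⟩
  rw [List.mem_filter, List.mem_dedup]
  refine ⟨h1.1, ?_⟩
  rw [Bool.and_eq_true, Bool.and_eq_true, List.all_eq_true, List.all_eq_true]
  refine ⟨by simpa using h1.2.1, fun b hb => ?_, fun b hb => ?_⟩
  · obtain ⟨i', hi', h2, h3, h4⟩ := nb2 hN hsb hF hT hC h hb
    rw [good0, List.any_eq_true]
    exact ⟨i', List.mem_range.2 hi', by rw [h3]; simpa using h4⟩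
  · obtain ⟨i', hi', h2, h3, h4⟩ := nb3 hN hsb hF hT hC h hb
    rw [good0, List.any_eq_true]
    exact ⟨i', List.mem_range.2 hi', by rw [h3]; simpa using h4⟩

lemma mem_cand2 {A : List (ℕ × ℕ × ℕ)} {C} (hC : C ∈ F) (hA : In T A C) {a i j : ℕ}
    (hj : j < T.length) (h : (a, (lk T i : Multiset ℕ), (lk T j : Multiset ℕ)) ∈ C) {b : ℕ}
    (hb : b ∈ (lk T j).erase a) : ∃ i' < T.length,
      (b, (lk T i' : Multiset ℕ), (lk T j : Multiset ℕ)) ∈ C ∧ (b, i', j) ∈ cand2 N sb T A a i j b := by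
  obtain ⟨i', hi', h2, h3, h4⟩ := nb2 hN hsb hF hT hC h hb
  refine ⟨i', hi', h2, ?_⟩
  rw [cand2, List.mem_filter]
  refine ⟨hA _ _ _ hi' hj h2, ?_⟩
  simp [h3]

lemma mem_cand3 {A : List (ℕ × ℕ × ℕ)} {C} (hC : C ∈ F) (hA : In T A C) {a i j : ℕ}
    (hi : i < T.length) (h : (a, (lk T i : Multiset ℕ), (lk T j : Multiset ℕ)) ∈ C) {b : ℕ}
    (hb : b ∈ (lk T i).erase a) : ∃ j' < T.length,
      (b, (lk T i : Multiset ℕ), (lk T j' : Multiset ℕ)) ∈ C ∧ (b, i, j') ∈ cand3 N sb T A a i j b := by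
  obtain ⟨i', hi', h2, h3, h4⟩ := nb3 hN hsb hF hT hC h hb
  refine ⟨i', hi', h2, ?_⟩
  rw [cand3, List.mem_filter]
  refine ⟨hA _ _ _ hi hi' h2, ?_⟩
  simp [h3]

lemma in_alive2 {A : List (ℕ × ℕ × ℕ)} {C} (hC : C ∈ F) (hA : In T A C) :
    In T (A.filter (alive2 N sb T A)) C := by
  intro a i j hi hj h
  rw [List.mem_filter]
  refine ⟨hA a i j hi hj h, ?_⟩
  rw [alive2, Bool.and_eq_true, List.all_eq_true, List.all_eq_true]
  refine ⟨fun b hb => ?_, fun b hb => ?_⟩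
  · obtain ⟨i', -, -, h2⟩ := mem_cand2 hN hsb hF hT hC hA hj h hb
    rw [Bool.not_eq_true', List.isEmpty_eq_false_iff]
    exact List.ne_nil_of_mem h2
  · obtain ⟨i', -, -, h2⟩ := mem_cand3 hN hsb hF hT hC hA hi h hb
    rw [Bool.not_eq_true', List.isEmpty_eq_false_iff]
    exact List.ne_nil_of_mem h2

omit hN hsb hF hT in
lemma sing_eq {l : List (ℕ × ℕ × ℕ)} {y z : ℕ × ℕ × ℕ} (hy : y ∈ sing l) (hz : z ∈ l) : y = z := by
  match l with
  | [] => simp [sing] at hy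
  | [w] =>
    simp only [sing, List.mem_singleton] at hy hz
    rw [hy, hz]
  | w :: w' :: l => simp [sing] at hy

/-- all the cells of the list are in `C` -/
def Sub (T : List (List ℕ)) (s : List (ℕ × ℕ × ℕ)) (C : Set (ℕ × Multiset ℕ × Multiset ℕ)) : Prop :=
  ∀ c ∈ s, c.2.1 < T.length ∧ c.2.2 < T.length ∧
    (c.1, (lk T c.2.1 : Multiset ℕ), (lk T c.2.2 : Multiset ℕ)) ∈ C

lemma sub_forced {A s : List (ℕ × ℕ × ℕ)} {C} (hC : C ∈ F) (hA : In T A C) (hs : Sub T s C) :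
    Sub T (forced N sb T A s) C := by
  intro c hc
  rw [forced, List.mem_dedup, List.mem_append] at hc
  rcases hc with hc | hc
  · exact hs c hc
  · rw [List.mem_flatMap] at hc
    obtain ⟨c0, h0, hc⟩ := hc
    obtain ⟨h1, h2, h3⟩ := hs c0 h0
    rw [List.mem_append, List.mem_flatMap, List.mem_flatMap] at hc
    rcases hc with ⟨b, hb, hc⟩ | ⟨b, hb, hc⟩
    · obtain ⟨i', h4, h5, h6⟩ := mem_cand2 hN hsb hF hT hC hA h2 h3 hb
      rw [sing_eq hc h6]
      exact ⟨h4, h2, h5⟩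
    · obtain ⟨i', h4, h5, h6⟩ := mem_cand3 hN hsb hF hT hC hA h1 h3 hb
      rw [sing_eq hc h6]
      exact ⟨h1, h4, h5⟩

lemma in_dead4 {A : List (ℕ × ℕ × ℕ)} (hA : ∀ C ∈ F, In T A C) {C} (hC : C ∈ F) :
    In T (A.filter (fun c => !dead4 N sb T A c)) C := by
  intro a i j hi hj h
  rw [List.mem_filter]
  refine ⟨hA C hC a i j hi hj h, ?_⟩
  rw [Bool.not_eq_true', Bool.eq_false_iff]
  intro hd
  have h0 : Sub T [(a, i, j)] C := by
    intro c hc
    rw [List.mem_singleton] at hc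
    subst hc
    exact ⟨hi, hj, h⟩
  have h4 := sub_forced hN hsb hF hT hC (hA C hC) (sub_forced hN hsb hF hT hC (hA C hC)
    (sub_forced hN hsb hF hT hC (hA C hC) (sub_forced hN hsb hF hT hC (hA C hC) h0)))
  rw [dead4, List.any_eq_true] at hd
  obtain ⟨x, hx, hd⟩ := hd
  rw [List.any_eq_true] at hd
  obtain ⟨y, hy, hd⟩ := hd
  simp only [Bool.and_eq_true, Bool.not_eq_true'] at hd
  obtain ⟨⟨⟨h5, h6⟩, h7⟩, h8⟩ := hd
  replace h5 := Nat.eq_of_beq_eq_true h5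
  obtain ⟨x1, x2, x3⟩ := h4 x hx
  obtain ⟨y1, y2, y3⟩ := h4 y hy
  rw [← h5] at y3
  obtain ⟨C', hC', h9⟩ := (hF C hC _ _ _ x3).2.2.2 _ _ y3
    (by
      intro e
      rw [Multiset.coe_eq_coe] at e
      rw [List.isPerm_iff.2 e] at h6
      exact absurd h6 (by decide))
    (by
      intro e
      rw [Multiset.coe_eq_coe] at e
      rw [List.isPerm_iff.2 e] at h7
      exact absurd h7 (by decide))
  have h10 := hA C' hC' _ _ _ x1 y2 h9
  have : A.contains (x.1, x.2.1, y.2.2) = true := by simpa using h10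
  rw [this] at h8
  exact absurd h8 (by decide)

lemma in_go (r : List Bool) : ∀ A : List (ℕ × ℕ × ℕ), (∀ C ∈ F, In T A C) →
    ∀ C ∈ F, In T (go N sb T r A) C := by
  induction r with
  | nil => intro A hA; exact hA
  | cons b r ih =>
    intro A hA
    cases b
    · exact ih _ fun C hC => in_alive2 hN hsb hF hT hC (hA C hC)
    · exact ih _ fun C hC => in_dead4 hN hsb hF hT hA hC

lemma fin (r : List Bool) (h : go N sb T r (cells1 N sb T) = []) : ∀ C ∈ F, C = ∅ := by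
  intro C hC
  rw [Set.eq_empty_iff_forall_notMem]
  rintro ⟨a, τ, γ⟩ hx
  obtain ⟨⟨i, hi, rfl⟩, ⟨j, hj, rfl⟩⟩ := hT C hC _ _ _ hx
  have := in_go hN hsb hF hT r (cells1 N sb T) (fun C hC => in_cells1 hN hsb hF hT hC) C hC
    a i j hi hj hx
  rw [h] at this
  simp at this

end sound

/-- the whole check -/
theorem run {N B : ℕ} (pb sb : ℕ → Bool) (T : List (List ℕ)) (r : List Bool) (hN : 0 < N)
    (hpb : ∀ s s', s ≤ s' → pb s' = true → pb s = true) (hsb : ∀ s ≤ B, sb s = true)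
    (h1 : chkT N pb T = true) (h2 : (go N sb T r (cells1 N sb T)).isEmpty = true)
    {F : Set (Set (ℕ × Multiset ℕ × Multiset ℕ))} (hF : ClosedFam N B F)
    (hp : ∀ C ∈ F, ∀ a τ γ, (a, τ, γ) ∈ C → pb τ.sum = true ∧ pb γ.sum = true) :
    ∀ C ∈ F, C = ∅ := by
  have key : ∀ τ : Multiset ℕ, ValT N τ → pb τ.sum = true →
      ∃ i < T.length, (lk T i : Multiset ℕ) = τ := by
    intro τ hτ hpτ
    obtain ⟨l, hl, rfl⟩ := chkT_sound hN hpb h1 τ hτ hpτ
    obtain ⟨i, hi, rfl⟩ := List.mem_iff_getElem.1 hl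
    exact ⟨i, hi, by rw [lk, List.getD_eq_getElem _ _ hi]⟩
  refine fin hN hsb hF (fun C hC a τ γ h => ?_) r (List.isEmpty_iff.1 h2)
  have h3 := (hF C hC _ _ _ h).1
  have h4 := hp C hC _ _ _ h
  exact ⟨key τ h3.2.2.1 h4.1, key γ h3.2.2.2 h4.2⟩

end Pool.Agent.Helper97.PQ.Chk
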